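import Mathlib
import Pool.Agent.NPC.Defs
import Pool.Agent.MP_5c36ef_lc.Statement
import Pool.Agent.MP_5c36ef_lc.Main

set_option autoImplicit false

/-!
# Recognising NeST graphs is NP-hard

Idea of the proof. In a NeST graph one can choose for every vertex `v` a pair `(t_v, b_v)` such that
in every induced 4-cycle `a b c d` both keys of `a, c` are smaller than both keys of `b, d`, or
conversely (four-point condition). In a complete multipartite graph with parts `{i^1, …, i^n}`,
`i < n`, the keys therefore define a linear order of the parts. For a part `k` and a set `X` of
other parts, two new adjacent vertices `g`, `e`, with `g` adjacent to the `k`-th copies of the parts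
in `X` and `e` adjacent to the `k`-th copy of `k`, force that `k` lies on one side of `X` in this
order; conversely every order with these properties gives a NeST representation. Systems of such
constraints encode 3-SAT.
-/

open Pool.NPC Pool.Agent.MP_5c36ef_lc

/-- The recognition problem for NeST graphs (the input is a finite graph, given by its adjacency
matrix) is NP-hard under polynomial-time many-one reductions. -/
theorem Pool.Agent.Results.MP_5c36ef_lc.NPHardness.result : NPHard nestProblem :=
  npHard_nestProblem
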